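import Mathlib

/-!
# Milnor K-groups, tame symbols, Bass-Tate norms and residues: definitions

Homomorphisms are defined by their characteristic property.
-/

open CategoryTheory

universe u

namespace Pool.Agent.H14.KC

noncomputable section

/-- The free abelian group on `α`. -/
def FZ (α : Type u) : AddCommGrpCat.{u} := AddCommGrpCat.of (FreeAbelianGroup α)

/-- A generator. -/
def fr {α : Type u} (a : α) : FZ α := FreeAbelianGroup.of a

/-- The quotient of `G` by the subgroup generated by `S`. -/
def quo (G : AddCommGrpCat.{u}) (S : Set G) : AddCommGrpCat.{u} :=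
  AddCommGrpCat.of (G ⧸ AddSubgroup.closure S)

/-- The projection. -/
def pr {G : AddCommGrpCat.{u}} (S : Set G) (x : G) : quo G S :=
  (QuotientAddGroup.mk x : G ⧸ AddSubgroup.closure S)

/-- The value of a homomorphism. -/
def ap {A B : AddCommGrpCat.{u}} (φ : A ⟶ B) (x : A) : B := φ.hom x

open Classical in
/-- THE homomorphism with property `P` (zero if there is none). -/
def the {A B : AddCommGrpCat.{u}} (P : (A ⟶ B) → Prop) : A ⟶ B :=
  if h : ∃ φ, P φ then h.choose else 0

/-- The relations of the Milnor K-group `K_n(R)`: multilinearity and the Steinberg relation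
`{.., a, 1 - a, ..} = 0`. -/
def rel (R : Type u) [CommRing R] (n : ℕ) : Set (FZ (Fin n → Rˣ)) :=
  {z | (∃ a i x y, z = fr (Function.update a i (x * y)) - fr (Function.update a i x) -
      fr (Function.update a i y)) ∨
    ∃ (a : Fin n → Rˣ) (i j : Fin n), (j : ℕ) = i + 1 ∧ (a i : R) + a j = 1 ∧ z = fr a}

/-- The `n`-th Milnor K-group of a commutative ring. -/
def K (n : ℕ) (R : Type u) [CommRing R] : AddCommGrpCat.{u} := quo _ (rel R n)

/-- The symbol `{a_1, …, a_n}`. -/
def sy {n : ℕ} {R : Type u} [CommRing R] (a : Fin n → Rˣ) : K n R := pr _ (fr a)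

/-- The homomorphism induced by a ring homomorphism. -/
def Kmap (n : ℕ) {R S : Type u} [CommRing R] [CommRing S] (f : R →+* S) : K n R ⟶ K n S :=
  the fun φ => ∀ a, ap φ (sy a) = sy fun i => Units.map f (a i)

/-- The tame symbol `K_(n+1)(F) → K_n(κ)` of a discrete valuation of a field `F` with residue field
`κ`, given by the set `P` of prime elements and the relation `r u b` between certain units and
their residues; these units and a prime element generate the multiplicative group. THE homomorphism
with `{π, u_1, …, u_n} ↦ {b_1, …, b_n}` and `{u_0, …, u_n} ↦ 0`. -/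
def tame {F κ : Type u} [Field F] [Field κ] (P : F → Prop) (r : F → κ → Prop) (n : ℕ) :
    K (n + 1) F ⟶ K n κ :=
  the fun φ =>
    (∀ (π : Fˣ) (u : Fin n → Fˣ) (b : Fin n → κˣ), P π → (∀ i, r (u i) (b i)) →
      ap φ (sy (Fin.cons π u)) = sy b) ∧
    ∀ (u : Fin (n + 1) → Fˣ) (b : Fin (n + 1) → κˣ), (∀ i, r (u i) (b i)) → ap φ (sy u) = 0

section norm

variable {F : Type u} [Field F]

open Polynomial in
/-- The tame symbol of `F(t)` at an irreducible polynomial `P`, with values in the K-group of
`F[t]/(P)`. -/
def tameAt (P : F[X]) [Fact (Irreducible P)] (n : ℕ) :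
    K (n + 1) (RatFunc F) ⟶ K n (AdjoinRoot P) :=
  tame (fun p => p = algebraMap F[X] _ P)
    (fun u b => ∃ f : F[X], u = algebraMap F[X] _ f ∧ b = AdjoinRoot.mk P f) n

open Polynomial in
/-- The tame symbol of `F(t)` at infinity: `1/t` is a prime element, the residue of
`f / t ^ (deg f)` is the leading coefficient of `f`. -/
def tameInf (F : Type u) [Field F] (n : ℕ) : K (n + 1) (RatFunc F) ⟶ K n F :=
  tame (fun p => p * RatFunc.X = 1)
    (fun u b => ∃ f : F[X], u * RatFunc.X ^ f.natDegree = algebraMap F[X] _ f ∧
      b = f.leadingCoeff) n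

open Polynomial in
/-- The Bass-Tate norm `K_n(F[t]/(P)) → K_n(F)` for a monic irreducible polynomial `P`: THE
homomorphism with `∂_P a ↦ - ∂_∞ a` for all `a` with `∂_Q a = 0` for all monic irreducible
`Q ≠ P`. -/
def polyNorm (P : F[X]) [Fact (Irreducible P)] (n : ℕ) : K n (AdjoinRoot P) ⟶ K n F :=
  the fun N => ∀ a, (∀ (Q : F[X]) [Fact (Irreducible Q)], Q.Monic → Q ≠ P →
    ap (tameAt Q n) a = 0) → ap N (ap (tameAt P n) a) = -ap (tameInf F n) a

open Classical in
/-- The Bass-Tate norm of the simple extension `F(x)/F` with respect to the generator `x`. -/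
def simpleNorm (F : Type u) [Field F] {E : Type u} [Field E] [Algebra F E] (x : E) (n : ℕ) :
    K n (IntermediateField.adjoin F {x}) ⟶ K n F :=
  if h : IsIntegral F x then
    haveI : Fact (Irreducible (minpoly F x)) := ⟨minpoly.irreducible h⟩
    Kmap n (IntermediateField.adjoinRootEquivAdjoin F h).symm.toRingEquiv.toRingHom ≫
      polyNorm (minpoly F x) n
  else 0

open Classical in
/-- The composition of the norms along the tower `F ⊆ F(x_1) ⊆ F(x_1, x_2) ⊆ …`. -/
def towerNorm {E : Type u} [Field E] (n : ℕ) : ∀ (_ : List E) (F : Type u) [Field F] [Algebra F E],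
    K n E ⟶ K n F
  | [], F, _, _ =>
    if h : Function.Bijective (algebraMap F E) then
      Kmap n (RingEquiv.ofBijective (algebraMap F E) h).symm.toRingHom
    else 0
  | x :: l, F, _, _ => towerNorm n l (IntermediateField.adjoin F {x}) ≫ simpleNorm F x n

open Classical in
/-- The norm `K_n(E) → K_n(F)` of a finite extension: the composition of the Bass-Tate norms along
the tower generated by a basis. -/
def norm (F E : Type u) [Field F] [Field E] [Algebra F E] (n : ℕ) : K n E ⟶ K n F :=
  if _h : FiniteDimensional F E then towerNorm n (List.ofFn (Module.finBasis F E)) F else 0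

end norm

section residue

variable (O F : Type u) [CommRing O] [IsLocalRing O] [Field F] [Algebra O F]

open Classical in
/-- The contribution of a valuation ring `V` of `F` to the residue map `K_(n+1)(F) → K_n(κ)`, `κ`
the residue field of `O`: if `V` is a discrete valuation ring which dominates `O` (there is a map
`g` of residue fields compatible with `O → V`), the composition of the tame symbol of `V` and the
norm for `g`. -/
def valRes (V : ValuationSubring F) (n : ℕ) :
    K (n + 1) F ⟶ K n (IsLocalRing.ResidueField O) :=
  if h : IsDiscreteValuationRing V ∧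
      ∃ g : IsLocalRing.ResidueField O →+* IsLocalRing.ResidueField V, ∀ a : O,
        ∃ ha : algebraMap O F a ∈ V,
          IsLocalRing.residue V ⟨_, ha⟩ = g (IsLocalRing.residue O a)
  then
    letI := h.2.choose.toAlgebra
    tame (fun p => ∃ hp : p ∈ V, Irreducible (⟨p, hp⟩ : V))
      (fun u b => ∃ hu : u ∈ V, b = IsLocalRing.residue V ⟨u, hu⟩) n ≫
      norm (IsLocalRing.ResidueField O) (IsLocalRing.ResidueField V) n
  else 0

/-- The residue map `K_(n+1)(F) → K_n(κ)` for a one-dimensional local ring `O` with residue field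
`κ` and fraction field `F`: the sum over all discrete valuation rings of `F` dominating `O`. -/
def gres (n : ℕ) : K (n + 1) F ⟶ K n (IsLocalRing.ResidueField O) :=
  ∑ᶠ V : ValuationSubring F, valRes O F V n

end residue

end

end Pool.Agent.H14.KC
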